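import Mathlib
import Pool.Agent.H28.Marcin

open MeasureTheory Set ENNReal

namespace Pool.Agent.Results.MP_6e3e44_an.LipInterp

/-- Lebesgue measure on `[0,1]`. -/
noncomputable abbrev m : Measure ℝ := volume.restrict (Icc 0 1)

theorem result (β γ α : ℝ≥0∞) (h0 : 1 ≤ β) (h1 : β < γ) (h2 : γ < α) (h3 : α < ⊤) :
    ∃ C : ℝ, 0 < C ∧ ∀ (U : Lp ℂ β m → Lp ℂ β m) (M₀ M₁ : ℝ),
      (∀ x : Lp ℂ β m, MemLp x α m → MemLp (U x) α m) →
      (∀ x y : Lp ℂ β m,
        eLpNorm (⇑(U x) - ⇑(U y)) β m ≤ ENNReal.ofReal M₀ * eLpNorm (⇑x - ⇑y) β m) →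
      (∀ x y : Lp ℂ β m, MemLp x α m → MemLp y α m →
        eLpNorm (⇑(U x) - ⇑(U y)) α m ≤ ENNReal.ofReal M₁ * eLpNorm (⇑x - ⇑y) α m) →
      (∀ x : Lp ℂ β m, MemLp x γ m → MemLp (U x) γ m) ∧
      ∀ x y : Lp ℂ β m, MemLp x γ m → MemLp y γ m →
        eLpNorm (⇑(U x) - ⇑(U y)) γ m
          ≤ ENNReal.ofReal (C * max M₀ M₁) * eLpNorm (⇑x - ⇑y) γ m := by
  have hβ0 : β ≠ 0 := (lt_of_lt_of_le zero_lt_one h0).ne'
  have hγ1 : 1 ≤ γ := h0.trans h1.le
  obtain ⟨C, hC, H⟩ := Pool.Agent.H28.Marcin.interp m (E := ℂ) hβ0 h1 h2 h3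
  refine ⟨C, hC, fun U M₀ M₁ hU hb ha => ?_⟩
  have step : ∀ x y : Lp ℂ β m, MemLp y α m → eLpNorm (⇑(U x) - ⇑(U y)) γ m
      ≤ ENNReal.ofReal (C * max M₀ M₁) * eLpNorm (⇑x - ⇑y) γ m := by
    intro x y hy
    rcases le_or_gt (max M₀ M₁) 0 with hM | hM
    · have := hb x y
      rw [ENNReal.ofReal_of_nonpos ((le_max_left _ _).trans hM), zero_mul, nonpos_iff_eq_zero,
        eLpNorm_eq_zero_iff ((Lp.aestronglyMeasurable _).sub (Lp.aestronglyMeasurable _)) hβ0]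
        at this
      rw [eLpNorm_congr_ae this]; simp
    have hh : StronglyMeasurable (⇑x - ⇑y : ℝ → ℂ) :=
      (Lp.stronglyMeasurable x).sub (Lp.stronglyMeasurable y)
    refine H _ _ _ hM ((Lp.aestronglyMeasurable _).sub (Lp.aestronglyMeasurable _)) hh
      fun t ht => ?_
    set h : ℝ → ℂ := ⇑x - ⇑y with hdef
    have hs : StronglyMeasurable fun ω => if t < ‖h ω‖ then 0 else h ω :=
      stronglyMeasurable_const.ite (measurableSet_lt measurable_const hh.norm.measurable) hh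
    have hmem : ∀ p, MemLp (fun ω => if t < ‖h ω‖ then 0 else h ω) p m := fun p =>
      MemLp.of_bound hs.aestronglyMeasurable t (Filter.Eventually.of_forall fun ω => by
        split_ifs with h4
        · simpa using ht.le
        · exact not_lt.1 h4)
    set z : Lp ℂ β m := y + (hmem β).toLp _ with hz
    have ez : (⇑z : ℝ → ℂ) =ᵐ[m] ⇑y + fun ω => if t < ‖h ω‖ then 0 else h ω := by
      filter_upwards [Lp.coeFn_add y ((hmem β).toLp _), (hmem β).coeFn_toLp] with ω e1 e2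
      rw [hz, e1, Pi.add_apply, e2]; rfl
    have hzα : MemLp z α m := (memLp_congr_ae ez).2 (hy.add (hmem α))
    refine ⟨⇑(U x) - ⇑(U z), ⇑(U z) - ⇑(U y),
      (Lp.aestronglyMeasurable _).sub (Lp.aestronglyMeasurable _),
      (Lp.aestronglyMeasurable _).sub (Lp.aestronglyMeasurable _),
      Filter.Eventually.of_forall fun ω => by simp, (hb x z).trans ?_, (ha z y hzα hy).trans ?_⟩
    · refine mul_le_mul' (ENNReal.ofReal_le_ofReal (le_max_left _ _)) (le_of_eq ?_)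
      refine eLpNorm_congr_ae ?_
      filter_upwards [ez] with ω e
      rw [Pi.sub_apply, e, Pi.add_apply]
      split_ifs <;> simp [hdef]
    · refine mul_le_mul' (ENNReal.ofReal_le_ofReal (le_max_right _ _)) (le_of_eq ?_)
      refine eLpNorm_congr_ae ?_
      filter_upwards [ez] with ω e
      rw [Pi.sub_apply, e, Pi.add_apply]
      simp
  have h0α : MemLp (0 : Lp ℂ β m) α m := (memLp_congr_ae (Lp.coeFn_zero _ _ _)).2 MemLp.zero
  refine ⟨fun x hx => ?_, fun x y hx hy => ?_⟩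
  · have h4 : MemLp (⇑(U x) - ⇑(U 0)) γ m :=
      ⟨(Lp.aestronglyMeasurable _).sub (Lp.aestronglyMeasurable _), (step x 0 h0α).trans_lt
        (ENNReal.mul_lt_top ENNReal.ofReal_lt_top (hx.sub (h0α.mono_exponent h2.le)).2)⟩
    simpa using h4.add ((hU 0 h0α).mono_exponent h2.le)
  · set K := ENNReal.ofReal (C * max M₀ M₁) with hK
    refine ENNReal.le_of_forall_pos_le_add fun ε hε _ => ?_
    obtain ⟨δ, hδ, hδ2⟩ : ∃ δ : ℝ≥0∞, δ ≠ 0 ∧ K * δ + K * δ ≤ ε := by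
      obtain ⟨n, hn, h5⟩ := ENNReal.exists_nnreal_pos_mul_lt (a := K + K) (b := ε)
        (by simp [hK]) (by simpa using hε.ne')
      exact ⟨n, by simpa using hn.ne', by rw [← add_mul, mul_comm]; exact h5.le⟩
    obtain ⟨g, hg, -⟩ := hy.exists_simpleFunc_eLpNorm_sub_lt (h2.trans h3).ne hδ
    set z : Lp ℂ β m := (g.memLp_of_isFiniteMeasure β m).toLp _
    have ez : (⇑z : ℝ → ℂ) =ᵐ[m] ⇑g := MemLp.coeFn_toLp _
    have hzα : MemLp z α m := (memLp_congr_ae ez).2 (g.memLp_of_isFiniteMeasure α m)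
    have hyz : eLpNorm (⇑y - ⇑z) γ m ≤ δ := by
      refine le_trans (le_of_eq (eLpNorm_congr_ae ?_)) hg.le
      filter_upwards [ez] with ω e
      rw [Pi.sub_apply, e]; rfl
    have hxz : eLpNorm (⇑x - ⇑z) γ m ≤ eLpNorm (⇑x - ⇑y) γ m + δ := by
      have := eLpNorm_add_le (f := ⇑x - ⇑y) (g := ⇑y - ⇑z) (μ := m)
        ((Lp.aestronglyMeasurable _).sub (Lp.aestronglyMeasurable _))
        ((Lp.aestronglyMeasurable _).sub (Lp.aestronglyMeasurable _)) hγ1
      rw [sub_add_sub_cancel] at this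
      exact this.trans (add_le_add le_rfl hyz)
    have := eLpNorm_add_le (f := ⇑(U x) - ⇑(U z)) (g := ⇑(U z) - ⇑(U y)) (μ := m)
      ((Lp.aestronglyMeasurable _).sub (Lp.aestronglyMeasurable _))
      ((Lp.aestronglyMeasurable _).sub (Lp.aestronglyMeasurable _)) hγ1
    rw [sub_add_sub_cancel, eLpNorm_sub_comm (U z)] at this
    calc _ ≤ _ := this
      _ ≤ K * (eLpNorm (⇑x - ⇑y) γ m + δ) + K * δ :=
        add_le_add ((step x z hzα).trans (mul_le_mul_right hxz _))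
          ((step y z hzα).trans (mul_le_mul_right hyz _))
      _ = K * eLpNorm (⇑x - ⇑y) γ m + (K * δ + K * δ) := by ring
      _ ≤ _ := add_le_add le_rfl hδ2

end Pool.Agent.Results.MP_6e3e44_an.LipInterp
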